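import Pool.Agent.N637.SLK.Ari
import Pool.Agent.N637.P21.Two

/-!
# SLK/N2: the place 2, necessity (written by helper530)

Generalises `Pool.Agent.N637.P21.Two` (helper637) from `(9, 16)` to `(a², c²)`.
-/

set_option autoImplicit false

namespace Pool.Agent.N530.SLK

open Pool.Agent.TH841.SH (LocC SelG)
open Pool.Agent.Y667.RP (mod_of_sq)
open Pool.Agent.N875.X15 (even_val sq_cancel sq_trans close2 sq_of_mod8 unit_part unit_odd int_of_sq
  val_add_eq val_zero not_dvd_of_even to_coord mod8_int odd_of_sq)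
open Pool.Agent.N637.P21 (v2)

/-- a unit congruent to 1 modulo 8 -/
structure Un (α : ℤ_[2]) : Prop where
  ne : (α : ℚ_[2]) ≠ 0
  val : (α : ℚ_[2]).valuation = 0
  one : PadicInt.toZModPow 3 α = 1

lemma un_sq {a : ℤ} (ha : a % 2 = 1) : Un ((a ^ 2 : ℤ) : ℤ_[2]) := by
  have hodd : ¬ ((2 : ℕ) : ℤ) ∣ a ^ 2 := by
    intro h
    have h1 : (2 : ℤ) ∣ a := Int.prime_two.dvd_of_dvd_pow (by exact_mod_cast h)
    omega
  have h0 : a ^ 2 ≠ 0 := by
    intro h
    apply hodd
    rw [h]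
    exact dvd_zero _
  refine ⟨?_, ?_, ?_⟩
  · have : ((a ^ 2 : ℤ) : ℚ_[2]) ≠ 0 := by exact_mod_cast h0
    simpa using this
  · have := val_zero (p := 2) hodd
    simpa using this
  · rw [map_intCast]
    have h8 : ((8 : ℕ) : ℤ) ∣ a ^ 2 - 1 := by
      obtain ⟨b, hb⟩ : ∃ b, a = 2 * b + 1 := ⟨a / 2, by omega⟩
      have h2 : b * (b + 1) % 2 = 0 := by
        rcases Int.even_or_odd b with ⟨r, hr⟩ | ⟨r, hr⟩
        · have : b * (b + 1) = 2 * (r * (b + 1)) := by rw [hr]; ring
          omega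
        · have : b * (b + 1) = 2 * (b * (r + 1)) := by rw [hr]; ring
          omega
      have h3 : a ^ 2 - 1 = 4 * (b * (b + 1)) := by rw [hb]; ring
      rw [h3]
      push_cast
      omega
    have h2 := (ZMod.intCast_zmod_eq_zero_iff_dvd (a ^ 2 - 1) 8).2 h8
    rw [Int.cast_sub, Int.cast_one] at h2
    exact sub_eq_zero.1 h2

lemma val_un {α : ℤ_[2]} (hα : Un α) {m : ℤ} (hm : m ≠ 0) :
    ((α : ℚ_[2]) * m).valuation = (m : ℚ_[2]).valuation := by
  have hm' : (m : ℚ_[2]) ≠ 0 := by exact_mod_cast hm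
  rw [Padic.valuation_mul hα.ne hm', hα.val, zero_add]

lemma val_un16 {κ : ℤ_[2]} (hκ : Un κ) {m : ℤ} (hm : m ≠ 0) :
    (16 * (κ : ℚ_[2]) * m).valuation = 4 + (m : ℚ_[2]).valuation := by
  have hm' : (m : ℚ_[2]) ≠ 0 := by exact_mod_cast hm
  rw [Padic.valuation_mul (mul_ne_zero (by norm_num) hκ.ne) hm',
    Padic.valuation_mul (by norm_num) hκ.ne, hκ.val, add_zero]
  congr 1
  have : (16 : ℚ_[2]) = 2 ^ 4 := by norm_num
  rw [this, Padic.valuation_pow, v2]
  norm_num

/-- **The isolated coordinate at 2.** -/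
theorem two_iso {m : ℤ} (hm : m ≠ 0) {α κ : ℤ_[2]} (hα : Un α) (hκ : Un κ) {v : ℚ_[2]} (hv : v ≠ 0)
    (hu : v + α * m ≠ 0) (hw : v + 16 * κ * m ≠ 0)
    (hs : IsSquare (v * (v + α * m) * (v + 16 * κ * m))) :
    IsSquare (v + α * m) ∨ IsSquare ((v + α * m) * m) ∨
      (IsSquare ((v + α * m) * (5 * m)) ∧ IsSquare (m : ℚ_[2])) := by
  have hm' : (m : ℚ_[2]) ≠ 0 := by exact_mod_cast hm
  have v16 := val_un16 hκ hm
  have v9 := val_un hα hm
  have hαm : (α : ℚ_[2]) * m ≠ 0 := mul_ne_zero hα.ne hm'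
  have hκm : 16 * (κ : ℚ_[2]) * m ≠ 0 := mul_ne_zero (mul_ne_zero (by norm_num) hκ.ne) hm'
  rcases le_or_gt (v.valuation + 3) (4 + (m : ℚ_[2]).valuation) with c1 | c1
  · left
    have h1 := (close2 hw hv (by
      rw [add_sub_cancel_left]
      exact hκm) (by
      rw [add_sub_cancel_left, v16]
      exact c1)).1
    have e : v * (v + α * m) * (v + 16 * κ * m) = ((v + 16 * κ * m) * v) * (v + α * m) := by ring
    rw [e] at hs
    exact sq_cancel (mul_ne_zero hw hv) h1 hs
  · rcases le_or_gt ((m : ℚ_[2]).valuation + 3) v.valuation with c2 | c2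
    · right; left
      have h1 := (close2 hu hαm (by
        rw [add_sub_cancel_right]
        exact hv) (by
        rw [add_sub_cancel_right, v9]
        exact c2)).1
      have h2 : IsSquare (α : ℚ_[2]) := sq_of_mod8 α hα.one
      refine sq_cancel hα.ne h2 ?_
      have e : (α : ℚ_[2]) * ((v + α * m) * m) = (v + α * m) * (α * m) := by ring
      rw [e]
      exact h1
    · right; right
      have c3 : v.valuation = (m : ℚ_[2]).valuation + 2 := by omega
      have h4 : (v / (4 * m)).valuation = 0 := by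
        rw [div_eq_mul_inv, Padic.valuation_mul hv (inv_ne_zero (mul_ne_zero (by norm_num) hm')),
          Padic.valuation_inv, Padic.valuation_mul (by norm_num) hm', c3]
        have : (4 : ℚ_[2]) = 2 ^ 2 := by norm_num
        rw [this, Padic.valuation_pow, v2]
        push_cast
        ring
      obtain ⟨s, hs1, hs2⟩ := unit_part (div_ne_zero hv (mul_ne_zero (by norm_num : (4 : ℚ_[2]) ≠ 0)
        hm'))
      rw [h4, zpow_zero, one_mul] at hs2
      have hv' : v = 4 * m * s := by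
        rw [← hs2]
        field_simp
      have hodd := unit_odd hs1
      have e4 : PadicInt.toZModPow (p := 2) 3 4 = 4 := map_ofNat (PadicInt.toZModPow (p := 2) 3) 4
      have e5 : PadicInt.toZModPow (p := 2) 3 5 = 5 := map_ofNat (PadicInt.toZModPow (p := 2) 3) 5
      have k1 : PadicInt.toZModPow 3 (s * (4 * s + α) * (s + 4 * κ)) = 1 := by
        rw [map_mul, map_mul, map_add, map_mul, map_add, map_mul, e4, hα.one, hκ.one]
        have : ∀ t : ZMod (2 ^ 3), t = 1 ∨ t = 3 ∨ t = 5 ∨ t = 7 →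
          t * (4 * t + 1) * (t + 4 * 1) = 1 := by decide
        apply this
        simpa using hodd
      have k2 : PadicInt.toZModPow 3 (5 * (4 * s + α)) = 1 := by
        rw [map_mul, map_add, map_mul, e4, hα.one, e5]
        have : ∀ t : ZMod (2 ^ 3), t = 1 ∨ t = 3 ∨ t = 5 ∨ t = 7 →
          5 * (4 * t + 1) = 1 := by decide
        apply this
        simpa using hodd
      have q1 := sq_of_mod8 _ k1
      have q2 := sq_of_mod8 _ k2
      have c4 : ((4 : ℤ_[2]) : ℚ_[2]) = 4 := rfl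
      have c5 : ((5 : ℤ_[2]) : ℚ_[2]) = 5 := rfl
      push_cast at q1 q2
      rw [c4] at q1
      rw [c4, c5] at q2
      constructor
      · have e : (v + α * m) * (5 * m) = (m * m) * (5 * (4 * (s : ℚ_[2]) + α)) := by
          rw [hv']
          ring
        rw [e]
        exact (IsSquare.mul_self _).mul q2
      · have e : v * (v + α * m) * (v + 16 * κ * m) = ((4 * m * (4 * m)) *
            ((s : ℚ_[2]) * (4 * (s : ℚ_[2]) + α) * ((s : ℚ_[2]) + 4 * κ))) * m := by
          rw [hv']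
          ring
        rw [e] at hs
        refine sq_cancel ?_ ((IsSquare.mul_self _).mul q1) hs
        intro h0
        have : v * (v + α * m) * (v + 16 * κ * m) = 0 := by rw [e, h0, zero_mul]
        exact mul_ne_zero (mul_ne_zero hv hu) hw this

/-- **A coordinate of the close pair at 2**, `m ≡ 1 mod 4`. -/
theorem two_even {m : ℤ} (hm4 : m % 4 = 1) {α κ : ℤ_[2]} (hα : Un α) (hκ : Un κ) {v : ℚ_[2]}
    (hv : v ≠ 0) (hu : v + α * m ≠ 0) (hw : v + 16 * κ * m ≠ 0)
    (hs : IsSquare (v * (v + α * m) * (v + 16 * κ * m))) : Even v.valuation := by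
  have hm : m ≠ 0 := by rintro rfl; simp at hm4
  have hm' : (m : ℚ_[2]) ≠ 0 := by exact_mod_cast hm
  have vm : (m : ℚ_[2]).valuation = 0 := val_zero (by push_cast; omega)
  have v9 : ((α : ℚ_[2]) * (m : ℚ_[2])).valuation = 0 := by rw [val_un hα hm, vm]
  have v16 : (16 * (κ : ℚ_[2]) * (m : ℚ_[2])).valuation = 4 := by
    rw [val_un16 hκ hm, vm]; norm_num
  have h9 : (α : ℚ_[2]) * m ≠ 0 := mul_ne_zero hα.ne hm'
  have h16 : 16 * (κ : ℚ_[2]) * m ≠ 0 := mul_ne_zero (mul_ne_zero (by norm_num) hκ.ne) hm'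
  have hsum : Even (v.valuation + (v + α * m).valuation + (v + 16 * κ * m).valuation) := by
    have := even_val (mul_ne_zero (mul_ne_zero hv hu) hw) hs
    rwa [Padic.valuation_mul (mul_ne_zero hv hu) hw, Padic.valuation_mul hv hu] at this
  by_contra hodd
  rw [Int.not_even_iff_odd] at hodd
  obtain ⟨k, hk⟩ := hodd
  obtain ⟨r, hr⟩ := hsum
  obtain ⟨s, hs1, hs2⟩ := unit_part hv
  have hodd := unit_odd hs1
  obtain ⟨y, hy⟩ := hs
  have key : ∀ t : ℤ_[2], (∃ z : ℚ_[2], z ^ 2 = t) → PadicInt.toZModPow 3 t ≠ 3 ∧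
      PadicInt.toZModPow 3 t ≠ 7 := by
    rintro t ⟨z, hz⟩
    obtain ⟨r, hr⟩ := int_of_sq hz
    rw [← hr, map_pow]
    have : ∀ t : ZMod (2 ^ 3), t ^ 2 ≠ 3 ∧ t ^ 2 ≠ 7 := by decide
    exact this _
  have c8 : PadicInt.toZModPow (p := 2) 3 8 = 8 := map_ofNat (PadicInt.toZModPow (p := 2) 3) 8
  have c2 : PadicInt.toZModPow (p := 2) 3 2 = 2 := map_ofNat (PadicInt.toZModPow (p := 2) 3) 2
  have d8 : ((8 : ℤ_[2]) : ℚ_[2]) = 8 := rfl
  have d2 : ((2 : ℤ_[2]) : ℚ_[2]) = 2 := rfl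
  have hmm := mod8_int hm4
  rcases lt_or_ge v.valuation 0 with c | c
  · have e1 := val_add_eq hv h9 hu (by rw [v9]; exact c)
    have e2 := val_add_eq hv h16 hw (by rw [v16]; omega)
    omega
  · rcases le_or_gt v.valuation 3 with c' | c'
    · have c'' : v.valuation = 1 ∨ v.valuation = 3 := by omega
      rcases c'' with c'' | c''
      · rw [c'', zpow_one] at hs2
        have h1 := key (s * (s + 8 * κ * m) * (2 * s + α * m)) ⟨y / 2, by
          push_cast
          rw [d8, d2, div_pow, pow_two, ← hy, hs2]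
          ring⟩
        rw [map_mul, map_mul, map_add, map_add, map_mul, map_mul, map_mul, map_mul, c8, c2,
          hα.one, hκ.one] at h1
        have h2 : ∀ t μ : ZMod (2 ^ 3), (t = 1 ∨ t = 3 ∨ t = 5 ∨ t = 7) → (μ = 1 ∨ μ = 5) →
          ¬ (t * (t + 8 * 1 * μ) * (2 * t + 1 * μ) ≠ 3 ∧
            t * (t + 8 * 1 * μ) * (2 * t + 1 * μ) ≠ 7) := by
          decide
        exact h2 _ _ (by simpa using hodd) hmm h1
      · have e3 : (2 : ℚ_[2]) ^ (3 : ℤ) = 8 := by norm_num
        rw [c'', e3] at hs2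
        have h1 := key (s * (s + 2 * κ * m) * (8 * s + α * m)) ⟨y / 8, by
          push_cast
          rw [d8, d2, div_pow, pow_two, ← hy, hs2]
          ring⟩
        rw [map_mul, map_mul, map_add, map_add, map_mul, map_mul, map_mul, map_mul, c8, c2,
          hα.one, hκ.one] at h1
        have h2 : ∀ t μ : ZMod (2 ^ 3), (t = 1 ∨ t = 3 ∨ t = 5 ∨ t = 7) → (μ = 1 ∨ μ = 5) →
          ¬ (t * (t + 2 * 1 * μ) * (8 * t + 1 * μ) ≠ 3 ∧
            t * (t + 2 * 1 * μ) * (8 * t + 1 * μ) ≠ 7) := by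
          decide
        exact h2 _ _ (by simpa using hodd) hmm h1
    · have e1 := val_add_eq h9 hv (by rwa [add_comm]) (by rw [v9]; omega)
      have e2 := val_add_eq h16 hv (by rwa [add_comm]) (by rw [v16]; omega)
      rw [add_comm] at e1
      rw [add_comm] at e2
      omega

/-- SLK-N2 -/
theorem t_N2 : Pool.Agent.N637.SLK.S_N2 := by
  intro m a c hcv hsq d1 d2 hd1 hd2 hloc
  have hm0 : m ≠ 0 := hsq.ne_zero
  have hm' : (m : ℚ_[2]) ≠ 0 := by exact_mod_cast hm0
  obtain ⟨k, hk⟩ : ∃ k : ℤ, c = 4 * k := ⟨c / 4, by have := hcv.hc; omega⟩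
  have hkodd : k % 2 = 1 := by have := hcv.hc; omega
  obtain ⟨α, hαd⟩ : ∃ α : ℤ_[2], α = ((a ^ 2 : ℤ) : ℤ_[2]) := ⟨_, rfl⟩
  obtain ⟨κ, hκd⟩ : ∃ κ : ℤ_[2], κ = ((k ^ 2 : ℤ) : ℤ_[2]) := ⟨_, rfl⟩
  have hα : Un α := by rw [hαd]; exact un_sq hcv.ha
  have hκ : Un κ := by rw [hκd]; exact un_sq hkodd
  have hαq : (α : ℚ_[2]) = (a : ℚ_[2]) ^ 2 := by rw [hαd]; push_cast; rfl
  have hκq : (κ : ℚ_[2]) = (k : ℚ_[2]) ^ 2 := by rw [hκd]; push_cast; rfl
  obtain ⟨x, y, hy, hxy, h1, h2⟩ := hloc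
  push_cast at hxy h1 h2
  rw [sub_zero] at hxy h1
  obtain ⟨v, hv⟩ : ∃ v, v = x - (a : ℚ_[2]) ^ 2 * m := ⟨_, rfl⟩
  have e1 : v + α * m = x := by rw [hv, hαq]; ring
  have e2 : v + 16 * κ * m = x - -((c : ℚ_[2]) ^ 2 - (a : ℚ_[2]) ^ 2) * m := by
    rw [hv, hκq, hk]
    push_cast
    ring
  rw [← hv] at h2 hxy
  rw [← e2] at hxy
  have hprod : x * v * (v + 16 * κ * m) ≠ 0 := by
    rw [← hxy]
    exact pow_ne_zero 2 hy
  have hw0 : v + 16 * κ * m ≠ 0 := right_ne_zero_of_mul hprod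
  have hx0 : x ≠ 0 := left_ne_zero_of_mul (left_ne_zero_of_mul hprod)
  have hv0 : v ≠ 0 := right_ne_zero_of_mul (left_ne_zero_of_mul hprod)
  have hs : IsSquare (v * (v + α * m) * (v + 16 * κ * m)) := by
    refine ⟨y, ?_⟩
    rw [e1, ← sq, hxy]
    ring
  have hiso := two_iso hm0 hα hκ hv0 (by rw [e1]; exact hx0) hw0 hs
  rw [e1] at hiso
  have hcase : IsSquare (d1 : ℚ_[2]) ∨ IsSquare ((d1 : ℚ_[2]) * m) ∨
      (IsSquare (((5 * d1 : ℤ)) : ℚ_[2]) ∧ IsSquare (m : ℚ_[2])) := by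
    rcases hiso with h3 | h3 | ⟨h3, h4⟩
    · left
      exact sq_cancel hx0 h3 h1
    · right; left
      exact to_coord hx0 h3 h1
    · right; right
      refine ⟨?_, h4⟩
      have h6 : IsSquare ((d1 : ℚ_[2]) * (5 * m)) := to_coord hx0 h3 h1
      have h7 : IsSquare ((m : ℚ_[2]) * (5 * d1)) := by
        have e : (m : ℚ_[2]) * (5 * d1) = (d1 : ℚ_[2]) * (5 * m) := by ring
        rwa [e]
      push_cast
      exact sq_cancel hm' h4 h7
  constructor
  · intro hm4
    constructor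
    · rcases hcase with h3 | h3 | ⟨h3, h4⟩
      · have := odd_of_sq hd1 h3
        omega
      · have hmm : ¬ (2 : ℤ) ∣ m := by omega
        have h9 : ¬ ((2 : ℕ) : ℤ) ∣ d1 := by
          have h10 : IsSquare ((m : ℚ_[2]) * d1) := by rwa [mul_comm]
          refine not_dvd_of_even hm' ?_ hd1 h10
          rw [val_zero (by exact_mod_cast hmm)]
          exact Even.zero
        have h11 := mod_of_sq (d := d1 * m) (by
          intro h12
          rcases Int.prime_two.dvd_or_dvd h12 with h13 | h13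
          · exact h9 (by exact_mod_cast h13)
          · exact hmm h13) (by push_cast; exact h3)
        have h14 : d1 % 4 * (m % 4) % 4 = 1 := by
          rw [← Int.mul_emod]
          omega
        rw [hm4] at h14
        omega
      · have h9 : ¬ ((2 : ℕ) : ℤ) ∣ d1 := by
          have h10 : IsSquare ((5 : ℚ_[2]) * d1) := by exact_mod_cast h3
          refine not_dvd_of_even (by norm_num) ?_ hd1 h10
          have : ((5 : ℤ) : ℚ_[2]).valuation = 0 := val_zero (by norm_num)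
          have h5' : (5 : ℚ_[2]).valuation = 0 := by exact_mod_cast this
          rw [h5']
          exact Even.zero
        have h11 := mod_of_sq (d := 5 * d1) (by push_cast at h9; omega) h3
        omega
    · have he := two_even hm4 hα hκ hv0 (by rw [e1]; exact hx0) hw0 hs
      have h9 := not_dvd_of_even hv0 he hd2 h2
      push_cast at h9
      omega
  · intro hm4
    rcases hcase with h3 | h3 | ⟨h3, h4⟩
    · exact Or.inl h3
    · exact Or.inr h3
    · have := odd_of_sq hsq h4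
      omega

end Pool.Agent.N530.SLK
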